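import Mathlib

set_option autoImplicit false

namespace Pool.Agent.MP_e8bb44_al

variable {n : ℕ}

/-- J: the matrices supported strictly above the diagonal blocks of the composition c
(the index i lies in the diagonal block number c.index i) -/
def nilRad (F : Type) [Field F] (c : Composition n) : Submodule F (Matrix (Fin n) (Fin n) F) where
  carrier := {x | ∀ i j, ¬ c.index i < c.index j → x i j = 0}
  add_mem' := fun {x y} hx hy i j h => by simp [hx i j h, hy i j h]
  zero_mem' := fun _ _ _ => rfl
  smul_mem' := fun a x hx i j h => by simp [hx i j h]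

/-- two linear forms on J are equivalent: m(x) = l(b r⁻¹ x r a) for all x in J, for some
block diagonal invertible r and some a, b in N = 1 + J -/
def Equivalent {F : Type} [Field F] (c : Composition n)
    (l m : Module.Dual F (nilRad F c)) : Prop :=
  ∃ (r : GL (Fin n) F) (a b : Matrix (Fin n) (Fin n) F),
    (∀ i j, c.index i ≠ c.index j → (r : Matrix (Fin n) (Fin n) F) i j = 0) ∧
    a - 1 ∈ nilRad F c ∧ b - 1 ∈ nilRad F c ∧
    ∀ x : nilRad F c,
      ∃ h : b * ((r⁻¹ : GL (Fin n) F) : Matrix (Fin n) (Fin n) F) * (x : Matrix (Fin n) (Fin n) F) *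
          (r : Matrix (Fin n) (Fin n) F) * a ∈ nilRad F c, m x = l ⟨_, h⟩

/-- a rook placement: a set of roots of J with at most one root in each row and each column -/
def IsRookPlacement (c : Composition n) (D : Finset (Fin n × Fin n)) : Prop :=
  (∀ p ∈ D, c.index p.1 < c.index p.2) ∧
  (∀ p ∈ D, ∀ q ∈ D, p.1 = q.1 → p = q) ∧ (∀ p ∈ D, ∀ q ∈ D, p.2 = q.2 → p = q)

/-- the form attached to D: the sum of the coordinate forms of the roots in D -/
def rookForm (F : Type) [Field F] (c : Composition n) (D : Finset (Fin n × Fin n)) :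
    Module.Dual F (nilRad F c) where
  toFun x := ∑ p ∈ D, (x : Matrix (Fin n) (Fin n) F) p.1 p.2
  map_add' x y := by simp [Finset.sum_add_distrib]
  map_smul' a x := by simp [Finset.mul_sum]

end Pool.Agent.MP_e8bb44_al
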